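import Pool.Agent.W648.UN.Stm

/-!
# Second derivative form of the Abel composed formula
-/

set_option autoImplicit false
set_option linter.all false

open MeasureTheory Set Filter Topology
open scoped ContDiff

noncomputable section

namespace Pool.Agent.W597.UN.JQ

open Pool.Agent.W648.UN

theorem nb_mono {A : Type} [NormedCommRing A] {H : ℝ → A} {η η' : ℝ} (h : NB H η)
    (hle : η ≤ η') : NB H η' := ⟨h.1, h.2.1, h.2.2.trans hle⟩

theorem nb_zero {A : Type} [NormedCommRing A] {η : ℝ} (hη : 0 ≤ η) :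
    NB (fun _ : ℝ => (0 : A)) η := by
  refine ⟨aestronglyMeasurable_const, ?_, ?_⟩
  · simp
  · simpa using hη

/-- Taylor formula with singular second derivative -/
theorem taylor {V V' V'' : ℝ → ℂ} {c : ℂ} {u : ℝ} (hu : 0 < u)
    (h1 : ∀ w, 0 < w → HasDerivAt V (V' w) w) (h2 : ∀ w, 0 < w → HasDerivAt V' (V'' w) w)
    (h0 : Tendsto V (𝓝[>] 0) (𝓝 0)) (h0' : Tendsto V' (𝓝[>] 0) (𝓝 c))
    (hint : IntervalIntegrable (fun w : ℝ => ((u - w : ℝ) : ℂ) * V'' w) volume 0 u) :
    V u = c * (u : ℂ) + ∫ w in (0 : ℝ)..u, ((u - w : ℝ) : ℂ) * V'' w := by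
  have hlin : ∀ w : ℝ, HasDerivAt (fun w : ℝ => ((u - w : ℝ) : ℂ)) (-1 : ℂ) w := by
    intro w
    have h : HasDerivAt (fun w : ℝ => u - w) (-1 : ℝ) w := by
      simpa using (hasDerivAt_id w).const_sub u
    have := h.ofReal_comp
    simpa using this
  have key := intervalIntegral.integral_eq_sub_of_hasDerivAt_of_tendsto (a := 0) (b := u)
    (f := fun w : ℝ => V w + ((u - w : ℝ) : ℂ) * V' w)
    (f' := fun w : ℝ => ((u - w : ℝ) : ℂ) * V'' w) (fa := c * (u : ℂ)) (fb := V u) hu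
    (by
      intro w hw
      have h3 := (h1 w hw.1).add ((hlin w).mul (h2 w hw.1))
      refine h3.congr_deriv ?_
      ring)
    hint
    (by
      have h3 : Tendsto (fun w : ℝ => ((u - w : ℝ) : ℂ)) (𝓝[>] 0) (𝓝 ((u - 0 : ℝ) : ℂ)) :=
        (hlin 0).continuousAt.tendsto.mono_left nhdsWithin_le_nhds
      have h4 := h0.add (h3.mul h0')
      have e : (0 : ℂ) + ((u - 0 : ℝ) : ℂ) * c = c * (u : ℂ) := by
        rw [sub_zero]; ring
      rw [e] at h4
      exact h4)
    (by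
      have h3 : ContinuousAt (fun w : ℝ => V w + ((u - w : ℝ) : ℂ) * V' w) u :=
        (h1 u hu).continuousAt.add ((hlin u).continuousAt.mul (h2 u hu).continuousAt)
      have h4 := h3.tendsto.mono_left (nhdsWithin_le_nhds (s := Iio u))
      have e : V u + ((u - u : ℝ) : ℂ) * V' u = V u := by
        rw [sub_self]; simp
      rw [e] at h4
      exact h4)
  rw [key]
  ring

/-- integrability of the majorant -/
theorem maj_int (S : ℝ) (hS : 0 ≤ S) :
    IntegrableOn (fun w : ℝ => w ^ (-(3 / 4) : ℝ) * Real.exp (5 * w)) (Ioc 0 S) := by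
  rw [← intervalIntegrable_iff_integrableOn_Ioc_of_le hS]
  exact (intervalIntegral.intervalIntegrable_rpow' (by norm_num)).mul_continuousOn
    (by fun_prop)

section
variable {h : ℝ → ℝ} {C : ℝ}

/-- the kernel -/
def GG (h : ℝ → ℝ) (r w : ℝ) : ℂ := ((h r : ℝ) : ℂ) * VPP (HH h r) w

theorem GG_zero (hz : ∀ t ≤ 0, h t = 0) {r : ℝ} (hr : r ≤ 0) (w : ℝ) : GG h r w = 0 := by
  unfold GG; rw [hz r hr]; simp

theorem GG_cont (hc : Continuous h)
    (hV : ContinuousOn (fun z : ℝ × ℝ => VPP (HH h z.1) z.2) (univ ×ˢ Ioi (0 : ℝ))) :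
    ContinuousOn (fun z : ℝ × ℝ => GG h z.1 z.2) (univ ×ˢ Ioi (0 : ℝ)) := by
  unfold GG
  exact ((Complex.continuous_ofReal.comp (hc.comp continuous_fst)).continuousOn).mul hV

theorem QQ_eq (s : ℝ) : QQ h s = (Real.pi : ℂ) * ((h s : ℝ) : ℂ) * lam (HH h s) 0 +
    ∫ u in Ioi (0 : ℝ), GG h (s - u) u := rfl

theorem meas_G (hG : ContinuousOn (fun z : ℝ × ℝ => GG h z.1 z.2) (univ ×ˢ Ioi (0 : ℝ))) (s : ℝ) :
    ContinuousOn (fun u : ℝ => GG h (s - u) u) (Ioi 0) := by
  have h1 : ContinuousOn (fun u : ℝ => ((s - u, u) : ℝ × ℝ)) (Ioi 0) := by fun_prop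
  exact hG.comp h1 (fun u hu => ⟨mem_univ _, hu⟩)

theorem cont_int (hz : ∀ t ≤ 0, h t = 0)
    (hG : ContinuousOn (fun z : ℝ × ℝ => GG h z.1 z.2) (univ ×ˢ Ioi (0 : ℝ)))
    (hb : ∀ r w, 0 < w → ‖GG h r w‖ ≤ C * (w ^ (-(3 / 4) : ℝ) * Real.exp (5 * w)))
    (hC : 0 ≤ C) :
    Continuous (fun s : ℝ => ∫ u in Ioi (0 : ℝ), GG h (s - u) u) := by
  rw [continuous_iff_continuousAt]
  intro s0
  set S : ℝ := max (s0 + 1) 0 with hS
  have hS0 : 0 ≤ S := le_max_right _ _
  refine continuousAt_of_dominated (bound := (Ioc (0 : ℝ) S).indicator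
    (fun w => C * (w ^ (-(3 / 4) : ℝ) * Real.exp (5 * w)))) ?_ ?_ ?_ ?_
  · exact Eventually.of_forall fun s =>
      (meas_G hG s).aestronglyMeasurable measurableSet_Ioi
  · have hev : ∀ᶠ s in 𝓝 s0, s < s0 + 1 := Iio_mem_nhds (lt_add_one s0)
    filter_upwards [hev] with s hs
    refine (ae_restrict_iff' measurableSet_Ioi).2 (Eventually.of_forall fun u hu => ?_)
    by_cases hu' : u ≤ S
    · rw [indicator_of_mem (show u ∈ Ioc (0 : ℝ) S from ⟨hu, hu'⟩)]
      exact hb _ _ hu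
    · rw [indicator_of_notMem (fun hh => hu' hh.2)]
      have : s0 + 1 ≤ S := le_max_left _ _
      rw [GG_zero hz (by linarith [not_le.1 hu']), norm_zero]
  · rw [integrable_indicator_iff measurableSet_Ioc]
    exact ((maj_int S hS0).const_mul C).mono_measure
      (Measure.restrict_mono subset_rfl Measure.restrict_le_self)
  · refine (ae_restrict_iff' measurableSet_Ioi).2 (Eventually.of_forall fun u hu => ?_)
    have h1 : Continuous (fun s : ℝ => ((s - u, u) : ℝ × ℝ)) := by fun_prop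
    have h2 : ContinuousAt (fun z : ℝ × ℝ => GG h z.1 z.2) (s0 - u, u) :=
      hG.continuousAt (by
        rw [mem_nhds_prod_iff]
        exact ⟨univ, univ_mem, Ioi 0, Ioi_mem_nhds hu, subset_rfl⟩)
    exact ContinuousAt.comp (f := fun s : ℝ => ((s - u, u) : ℝ × ℝ)) h2 h1.continuousAt

/-- the function of two variables used for Fubini -/
def FF (h : ℝ → ℝ) (t : ℝ) (s w : ℝ) : ℂ :=
  if 0 < w ∧ s ≤ t then ((t - s : ℝ) : ℂ) * GG h (s - w) w else 0

theorem FF_int (hz : ∀ t ≤ 0, h t = 0)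
    (hG : ContinuousOn (fun z : ℝ × ℝ => GG h z.1 z.2) (univ ×ˢ Ioi (0 : ℝ)))
    (hb : ∀ r w, 0 < w → ‖GG h r w‖ ≤ C * (w ^ (-(3 / 4) : ℝ) * Real.exp (5 * w)))
    (hC : 0 ≤ C) (t : ℝ) (ht : 0 ≤ t) :
    Integrable (Function.uncurry (FF h t)) (volume.prod volume) := by
  have hset : MeasurableSet (Iic t ×ˢ Ioi (0 : ℝ)) := measurableSet_Iic.prod measurableSet_Ioi
  have hmeas : AEStronglyMeasurable (Function.uncurry (FF h t)) (volume.prod volume) := by
    have e : Function.uncurry (FF h t) = (Iic t ×ˢ Ioi (0 : ℝ)).indicator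
        (fun z : ℝ × ℝ => ((t - z.1 : ℝ) : ℂ) * GG h (z.1 - z.2) z.2) := by
      funext z
      obtain ⟨s, w⟩ := z
      show (if 0 < w ∧ s ≤ t then _ else _) = _
      by_cases hh : 0 < w ∧ s ≤ t
      · rw [if_pos hh, indicator_of_mem]
        exact ⟨hh.2, hh.1⟩
      · rw [if_neg hh, indicator_of_notMem]
        exact fun hz => hh ⟨hz.2, hz.1⟩
    rw [e, aestronglyMeasurable_indicator_iff hset]
    refine ContinuousOn.aestronglyMeasurable ?_ hset
    refine ContinuousOn.mul ?_ ?_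
    · exact (Complex.continuous_ofReal.comp (by fun_prop : Continuous fun z : ℝ × ℝ =>
        t - z.1)).continuousOn
    · exact hG.comp (by fun_prop : ContinuousOn (fun z : ℝ × ℝ => ((z.1 - z.2, z.2) : ℝ × ℝ))
        (Iic t ×ˢ Ioi (0 : ℝ))) (fun z hz => ⟨mem_univ _, hz.2⟩)
  have hm1 : Integrable ((Icc (0 : ℝ) t).indicator (fun _ => (1 : ℝ))) volume := by
    rw [integrable_indicator_iff measurableSet_Icc]
    exact integrableOn_const (by simp)
  have hm2 : Integrable ((Ioc (0 : ℝ) t).indicator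
      (fun w => t * C * (w ^ (-(3 / 4) : ℝ) * Real.exp (5 * w)))) volume := by
    rw [integrable_indicator_iff measurableSet_Ioc]
    exact (maj_int t ht).const_mul (t * C)
  refine (hm1.mul_prod hm2).mono' hmeas (Eventually.of_forall fun z => ?_)
  obtain ⟨s, w⟩ := z
  show ‖FF h t s w‖ ≤ (Icc (0 : ℝ) t).indicator (fun _ => (1 : ℝ)) s *
    (Ioc (0 : ℝ) t).indicator (fun w => t * C * (w ^ (-(3 / 4) : ℝ) * Real.exp (5 * w))) w
  have hnn : 0 ≤ (Icc (0 : ℝ) t).indicator (fun _ => (1 : ℝ)) s *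
    (Ioc (0 : ℝ) t).indicator (fun w => t * C * (w ^ (-(3 / 4) : ℝ) * Real.exp (5 * w))) w := by
    refine mul_nonneg (indicator_nonneg (fun _ _ => zero_le_one) _)
      (indicator_nonneg (fun w hw => ?_) _)
    have := Real.rpow_nonneg hw.1.le (-(3 / 4) : ℝ)
    positivity
  unfold FF
  by_cases hh : 0 < w ∧ s ≤ t
  · rw [if_pos hh]
    by_cases hsw : s - w ≤ 0
    · rw [GG_zero hz hsw, mul_zero, norm_zero]
      exact hnn
    · have hs0 : 0 ≤ s := by linarith [not_le.1 hsw, hh.1]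
      rw [indicator_of_mem (show s ∈ Icc (0 : ℝ) t from ⟨hs0, hh.2⟩),
        indicator_of_mem (show w ∈ Ioc (0 : ℝ) t from ⟨hh.1, by linarith [not_le.1 hsw, hh.2]⟩),
        norm_mul,
        Complex.norm_real, Real.norm_of_nonneg (by linarith [hh.2]), one_mul, mul_assoc]
      exact mul_le_mul (by linarith) (hb _ _ hh.1) (norm_nonneg _) ht
  · rw [if_neg hh, norm_zero]
    exact hnn

theorem FF_int2 (hz : ∀ t ≤ 0, h t = 0)
    (hG : ContinuousOn (fun z : ℝ × ℝ => GG h z.1 z.2) (univ ×ˢ Ioi (0 : ℝ)))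
    (hb : ∀ r w, 0 < w → ‖GG h r w‖ ≤ C * (w ^ (-(3 / 4) : ℝ) * Real.exp (5 * w)))
    (hC : 0 ≤ C) (t : ℝ) (ht : 0 ≤ t) :
    Integrable (Function.uncurry (fun w r => FF h t (r + w) w)) (volume.prod volume) := by
  have hsw := (FF_int hz hG hb hC t ht).swap
  have hmp : MeasurePreserving (fun z : ℝ × ℝ => ((z.1, z.1 + z.2) : ℝ × ℝ))
      (volume.prod volume) (volume.prod volume) := measurePreserving_prod_add volume volume
  have h3 := (hmp.integrable_comp hsw.aestronglyMeasurable).2 hsw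
  refine h3.congr (Eventually.of_forall fun z => ?_)
  show FF h t (z.1 + z.2) z.1 = FF h t (z.2 + z.1) z.1
  rw [add_comm]

theorem inner_eq (t r : ℝ) (hr : r ∈ Ioc 0 t) :
    ∫ w in (0 : ℝ)..(t - r), ((t - r - w : ℝ) : ℂ) * GG h r w = ∫ w, FF h t (r + w) w := by
  rw [intervalIntegral.integral_of_le (by linarith [hr.2]),
    ← integral_indicator measurableSet_Ioc]
  refine integral_congr_ae (Eventually.of_forall fun w => ?_)
  show (Ioc 0 (t - r)).indicator (fun w : ℝ => ((t - r - w : ℝ) : ℂ) * GG h r w) w =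
    FF h t (r + w) w
  unfold FF
  by_cases hw : 0 < w ∧ r + w ≤ t
  · rw [indicator_of_mem (show w ∈ Ioc 0 (t - r) from ⟨hw.1, by linarith [hw.2]⟩), if_pos hw,
      add_sub_cancel_right, sub_sub]
  · rw [indicator_of_notMem (show w ∉ Ioc 0 (t - r) from fun hh => hw ⟨hh.1, by
      linarith [hh.2]⟩), if_neg hw]

theorem inner_int (hz : ∀ t ≤ 0, h t = 0)
    (hG : ContinuousOn (fun z : ℝ × ℝ => GG h z.1 z.2) (univ ×ˢ Ioi (0 : ℝ)))
    (hb : ∀ r w, 0 < w → ‖GG h r w‖ ≤ C * (w ^ (-(3 / 4) : ℝ) * Real.exp (5 * w)))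
    (hC : 0 ≤ C) (t : ℝ) (ht : 0 ≤ t) :
    IntervalIntegrable (fun r : ℝ => ∫ w in (0 : ℝ)..(t - r),
      ((t - r - w : ℝ) : ℂ) * GG h r w) volume 0 t := by
  rw [intervalIntegrable_iff_integrableOn_Ioc_of_le ht]
  have h1 := (FF_int2 hz hG hb hC t ht).swap
  have h2 : Integrable (fun r => ∫ w, FF h t (r + w) w) volume := h1.integral_prod_left
  exact h2.integrableOn.congr_fun (fun r hr => (inner_eq t r hr).symm) measurableSet_Ioc

theorem fubini (hz : ∀ t ≤ 0, h t = 0)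
    (hG : ContinuousOn (fun z : ℝ × ℝ => GG h z.1 z.2) (univ ×ˢ Ioi (0 : ℝ)))
    (hb : ∀ r w, 0 < w → ‖GG h r w‖ ≤ C * (w ^ (-(3 / 4) : ℝ) * Real.exp (5 * w)))
    (hC : 0 ≤ C) (t : ℝ) (ht : 0 ≤ t) :
    ∫ s in (0 : ℝ)..t, ((t - s : ℝ) : ℂ) * ∫ u in Ioi (0 : ℝ), GG h (s - u) u =
      ∫ r in (0 : ℝ)..t, ∫ w in (0 : ℝ)..(t - r), ((t - r - w : ℝ) : ℂ) * GG h r w := by
  have hint := FF_int hz hG hb hC t ht
  -- the left side
  have hL : ∫ s in (0 : ℝ)..t, ((t - s : ℝ) : ℂ) * ∫ u in Ioi (0 : ℝ), GG h (s - u) u =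
      ∫ s, ∫ w, FF h t s w := by
    rw [intervalIntegral.integral_of_le ht]
    rw [← integral_indicator measurableSet_Ioc]
    refine integral_congr_ae (Eventually.of_forall fun s => ?_)
    show (Ioc 0 t).indicator (fun s : ℝ => ((t - s : ℝ) : ℂ) * ∫ u in Ioi (0 : ℝ), GG h (s - u) u) s
      = ∫ w, FF h t s w
    by_cases hs : s ∈ Ioc 0 t
    · rw [indicator_of_mem hs, ← integral_const_mul, ← integral_indicator measurableSet_Ioi]
      refine integral_congr_ae (Eventually.of_forall fun w => ?_)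
      show (Ioi (0 : ℝ)).indicator (fun a => ((t - s : ℝ) : ℂ) * GG h (s - a) a) w = FF h t s w
      unfold FF
      by_cases hw : 0 < w
      · rw [indicator_of_mem (show w ∈ Ioi (0 : ℝ) from hw), if_pos ⟨hw, hs.2⟩]
      · rw [indicator_of_notMem (show w ∉ Ioi (0 : ℝ) from hw), if_neg (fun hh => hw hh.1)]
    · rw [indicator_of_notMem hs]
      symm
      rw [← integral_zero (μ := volume) (G := ℂ) (α := ℝ)]
      refine integral_congr_ae (Eventually.of_forall fun w => ?_)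
      show FF h t s w = 0
      unfold FF
      by_cases hh : 0 < w ∧ s ≤ t
      · rw [if_pos hh]
        have hs0 : s ≤ 0 := by
          by_contra hc
          exact hs ⟨not_le.1 hc, hh.2⟩
        rw [GG_zero hz (by linarith [hh.1]), mul_zero]
      · rw [if_neg hh]
  -- the right side
  have hR : ∫ r in (0 : ℝ)..t, ∫ w in (0 : ℝ)..(t - r), ((t - r - w : ℝ) : ℂ) * GG h r w =
      ∫ r, ∫ w, FF h t (r + w) w := by
    rw [intervalIntegral.integral_of_le ht, ← integral_indicator measurableSet_Ioc]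
    refine integral_congr_ae (Eventually.of_forall fun r => ?_)
    show (Ioc 0 t).indicator (fun r : ℝ => ∫ w in (0 : ℝ)..(t - r),
      ((t - r - w : ℝ) : ℂ) * GG h r w) r = ∫ w, FF h t (r + w) w
    by_cases hr : r ∈ Ioc 0 t
    · rw [indicator_of_mem hr]
      exact inner_eq t r hr
    · rw [indicator_of_notMem hr]
      symm
      rw [← integral_zero (μ := volume) (G := ℂ) (α := ℝ)]
      refine integral_congr_ae (Eventually.of_forall fun w => ?_)
      show FF h t (r + w) w = 0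
      unfold FF
      by_cases hh : 0 < w ∧ r + w ≤ t
      · rw [if_pos hh]
        have hr0 : r ≤ 0 := by
          by_contra hc
          exact hr ⟨not_le.1 hc, by linarith [hh.1, hh.2]⟩
        rw [add_sub_cancel_right, GG_zero hz hr0, mul_zero]
      · rw [if_neg hh]
  rw [hL, hR]
  -- Fubini and translation
  have e1 : ∫ s, ∫ w, FF h t s w = ∫ w, ∫ s, FF h t s w := integral_integral_swap hint
  have e2 : ∀ w, ∫ s, FF h t s w = ∫ r, FF h t (r + w) w := fun w =>
    (integral_add_right_eq_self (fun s => FF h t s w) w).symm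
  have hint2 := FF_int2 hz hG hb hC t ht
  rw [e1]
  simp only [e2]
  exact integral_integral_swap hint2

end

theorem th (hC : S_CTS) (hV : S_VPP) (hFV : S_FUNV) (hB : S_BD) : S_JQ := by
  intro h hok
  obtain ⟨hc, hz, hbd⟩ := hok
  obtain ⟨hNB, _, hlam, _, _, hVc⟩ := hC h ⟨hc, hz, hbd⟩
  obtain ⟨C, hC0, hVall⟩ := hV
  obtain ⟨_, _, hzero⟩ := hFV
  have hNB' : ∀ t, NB (HH h t) (1 / 40) := fun t => nb_mono (hNB t) (by norm_num)
  have hG := GG_cont hc hVc
  -- bound for the kernel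
  have hvb : ∀ r w, 0 < w → ‖VPP (HH h r) w‖ ≤ C * w ^ (-(3 / 4) : ℝ) * Real.exp (5 * w) * (1 / 40) := by
    intro r w hw
    have h1 := (hVall ℂ (HH h r) (hNB' r)).2.2.2.2.2 (fun _ : ℝ => (0 : ℂ)) (1 / 40)
      (nb_zero (by norm_num)) (by simpa using hNB' r) w hw
    rw [(hzero ℂ w).1, sub_zero] at h1
    exact h1
  have hb : ∀ r w, 0 < w → ‖GG h r w‖ ≤ C * (w ^ (-(3 / 4) : ℝ) * Real.exp (5 * w)) := by
    intro r w hw
    unfold GG
    rw [norm_mul, Complex.norm_real]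
    have h1 := hbd r
    have h2 := hvb r w hw
    have h3 : 0 ≤ C * (w ^ (-(3 / 4) : ℝ) * Real.exp (5 * w)) := by
      have := Real.rpow_nonneg hw.le (-(3 / 4) : ℝ)
      positivity
    have h4 : ‖h r‖ ≤ 1 := by rw [Real.norm_eq_abs]; linarith
    calc ‖h r‖ * ‖VPP (HH h r) w‖ ≤ 1 * (C * w ^ (-(3 / 4) : ℝ) * Real.exp (5 * w) * (1 / 40)) :=
          mul_le_mul h4 h2 (norm_nonneg _) zero_le_one
      _ ≤ _ := by nlinarith
  -- continuity of the first term
  have hcl : Continuous (fun s : ℝ => lam (HH h s) 0) := by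
    rw [← continuousOn_univ]
    have h1 : ContinuousOn (fun s : ℝ => ((s, 0) : ℝ × ℝ)) univ := by fun_prop
    have h2 := hlam.comp h1 (fun s _ => ⟨mem_univ _, le_refl (0 : ℝ)⟩)
    refine h2.congr fun s _ => ?_
    show lam (HH h s) 0 = lam (HH h s) ((0 : ℝ) : ℂ)
    rw [Complex.ofReal_zero]
  have hci := cont_int hz hG hb hC0.le
  have hcr : Continuous (fun s : ℝ => ((h s : ℝ) : ℂ)) := Complex.continuous_ofReal.comp hc
  have hQc : Continuous (QQ h) := by
    have e : QQ h = fun s => (Real.pi : ℂ) * ((h s : ℝ) : ℂ) * lam (HH h s) 0 +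
        ∫ u in Ioi (0 : ℝ), GG h (s - u) u := funext fun s => QQ_eq s
    rw [e]
    exact ((continuous_const.mul hcr).mul hcl).add hci
  refine ⟨hQc, fun s hs => ?_, fun t ht => ?_⟩
  · rw [QQ_eq, hz s hs, Complex.ofReal_zero, mul_zero, zero_mul, zero_add]
    refine setIntegral_eq_zero_of_forall_eq_zero fun u hu => ?_
    exact GG_zero hz (by linarith [show (0 : ℝ) < u from hu]) u
  · -- integrability of the Taylor remainder
    have hti : ∀ r u : ℝ, 0 < u →
        IntervalIntegrable (fun w : ℝ => ((u - w : ℝ) : ℂ) * VPP (HH h r) w) volume 0 u := by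
      intro r u hu
      rw [intervalIntegrable_iff_integrableOn_Ioc_of_le hu.le]
      have hcV : ContinuousOn (VPP (HH h r)) (Ioi 0) := (hVall ℂ (HH h r) (hNB' r)).2.1
      refine Integrable.mono' (g := fun w : ℝ => u * (C / 40) *
        (w ^ (-(3 / 4) : ℝ) * Real.exp (5 * w))) ((maj_int u hu.le).const_mul _) ?_ ?_
      · refine ContinuousOn.aestronglyMeasurable ?_ measurableSet_Ioc
        refine ContinuousOn.mul ?_ (hcV.mono fun w hw => hw.1)
        exact (Complex.continuous_ofReal.comp (by fun_prop : Continuous fun w : ℝ =>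
          u - w)).continuousOn
      · refine (ae_restrict_iff' measurableSet_Ioc).2 (Eventually.of_forall fun w hw => ?_)
        rw [norm_mul, Complex.norm_real, Real.norm_of_nonneg (by linarith [hw.2])]
        calc (u - w) * ‖VPP (HH h r) w‖ ≤
            u * (C * w ^ (-(3 / 4) : ℝ) * Real.exp (5 * w) * (1 / 40)) :=
              mul_le_mul (by linarith [hw.1]) (hvb r w hw.1) (norm_nonneg _) hu.le
          _ = _ := by ring
    have htay : ∀ r u : ℝ, 0 ≤ u → VV (HH h r) u = (Real.pi : ℂ) * lam (HH h r) 0 * (u : ℂ) +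
        ∫ w in (0 : ℝ)..u, ((u - w : ℝ) : ℂ) * VPP (HH h r) w := by
      intro r u hu
      rcases hu.eq_or_lt with rfl | hu
      · unfold VV
        simp
      · obtain ⟨g1, g2, g3, g4, _⟩ := hVall ℂ (HH h r) (hNB' r)
        have := taylor hu (fun w hw => (g1 w hw).1) (fun w hw => (g1 w hw).2) g3 g4 (hti r u hu)
        rw [smul_eq_mul] at this
        exact this
    have e1 : ∀ r ∈ Icc (0 : ℝ) t, ((h r : ℝ) : ℂ) * VV (HH h r) (t - r) =
        ((t - r : ℝ) : ℂ) * ((Real.pi : ℂ) * ((h r : ℝ) : ℂ) * lam (HH h r) 0) +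
        ∫ w in (0 : ℝ)..(t - r), ((t - r - w : ℝ) : ℂ) * GG h r w := by
      intro r hr
      rw [htay r (t - r) (by linarith [hr.2]), mul_add, ← intervalIntegral.integral_const_mul]
      congr 1
      · ring
      · refine intervalIntegral.integral_congr fun w _ => ?_
        show ((h r : ℝ) : ℂ) * (((t - r - w : ℝ) : ℂ) * VPP (HH h r) w) =
          ((t - r - w : ℝ) : ℂ) * (((h r : ℝ) : ℂ) * VPP (HH h r) w)
        ring
    have hA : Continuous (fun r : ℝ => ((t - r : ℝ) : ℂ) *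
        ((Real.pi : ℂ) * ((h r : ℝ) : ℂ) * lam (HH h r) 0)) :=
      (Complex.continuous_ofReal.comp (by fun_prop : Continuous fun r : ℝ => t - r)).mul
        ((continuous_const.mul hcr).mul hcl)
    have hBc : Continuous (fun s : ℝ => ((t - s : ℝ) : ℂ) *
        ∫ u in Ioi (0 : ℝ), GG h (s - u) u) :=
      (Complex.continuous_ofReal.comp (by fun_prop : Continuous fun r : ℝ => t - r)).mul hci
    -- integrability of the double integral
    have hBi : IntervalIntegrable (fun r : ℝ => ∫ w in (0 : ℝ)..(t - r),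
        ((t - r - w : ℝ) : ℂ) * GG h r w) volume 0 t := inner_int hz hG hb hC0.le t ht
    rw [intervalIntegral.integral_congr (g := fun r : ℝ => ((t - r : ℝ) : ℂ) *
      ((Real.pi : ℂ) * ((h r : ℝ) : ℂ) * lam (HH h r) 0) +
        ∫ w in (0 : ℝ)..(t - r), ((t - r - w : ℝ) : ℂ) * GG h r w)
      (fun r hr => e1 r (by rwa [uIcc_of_le ht] at hr)),
      intervalIntegral.integral_add (hA.intervalIntegrable _ _) hBi,
      ← fubini hz hG hb hC0.le t ht,
      ← intervalIntegral.integral_add (hA.intervalIntegrable _ _) (hBc.intervalIntegrable _ _)]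
    refine intervalIntegral.integral_congr fun s _ => ?_
    show ((t - s : ℝ) : ℂ) * ((Real.pi : ℂ) * ((h s : ℝ) : ℂ) * lam (HH h s) 0) +
      ((t - s : ℝ) : ℂ) * ∫ u in Ioi (0 : ℝ), GG h (s - u) u = ((t - s : ℝ) : ℂ) * QQ h s
    rw [QQ_eq, mul_add]

end Pool.Agent.W597.UN.JQ
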